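import Pool.Agent.BEW.StmtsP
import Pool.Agent.Helper82_BE01.WVC

/-!
# Squad BEW (MP_be01ff_an), row GRD: the gradient map
-/

set_option autoImplicit false

namespace Pool.Agent.BEW.H65

open Set Filter Topology MeasureTheory
open scoped InnerProductSpace ENNReal NNReal
open Pool.Agent.BE01 Pool.Agent.BEL Pool.Agent.BEG Pool.Agent.BEH Pool.Agent.BER

noncomputable section

theorem grd_grad_add {d : ℕ} {f g : En d → ℝ} (hf : Differentiable ℝ f)
    (hg : Differentiable ℝ g) (x : En d) :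
    gradient (fun y => f y + g y) x = gradient f x + gradient g x := by
  have h1 : HasGradientAt f (gradient f x) x := (hf x).hasGradientAt
  have h2 : HasGradientAt g (gradient g x) x := (hg x).hasGradientAt
  have h3 : HasGradientAt (fun y => f y + g y) (gradient f x + gradient g x) x := by
    rw [hasGradientAt_iff_hasFDerivAt, map_add]
    exact h1.hasFDerivAt.add h2.hasFDerivAt
  exact h3.gradient

theorem grd_grad_smul {d : ℕ} {f : En d → ℝ} (k : ℝ) (hf : Differentiable ℝ f) (x : En d) :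
    gradient (fun y => k * f y) x = k • gradient f x := by
  have h1 : HasGradientAt f (gradient f x) x := (hf x).hasGradientAt
  have h3 : HasGradientAt (fun y => k * f y) (k • gradient f x) x := by
    rw [hasGradientAt_iff_hasFDerivAt, map_smul]
    exact h1.hasFDerivAt.const_mul k
  exact h3.gradient

theorem grd_tst_add {d : ℕ} {Ω : Set (En d)} {ψ φ : En d → ℝ} (hψ : Tst Ω ψ) (hφ : Tst Ω φ) :
    Tst Ω (fun x => ψ x + φ x) := by
  have hsup : Function.support (fun x => ψ x + φ x) ⊆ Function.support ψ ∪ Function.support φ := by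
    intro x hx
    by_contra hc
    rw [mem_union, not_or] at hc
    apply hx
    have h1 : ψ x = 0 := by
      by_contra h
      exact hc.1 h
    have h2 : φ x = 0 := by
      by_contra h
      exact hc.2 h
    show ψ x + φ x = 0
    rw [h1, h2, add_zero]
  refine ⟨hψ.1.add hφ.1, hψ.2.1.add hφ.2.1, ?_⟩
  have h1 : tsupport (fun x => ψ x + φ x) ⊆ tsupport ψ ∪ tsupport φ := by
    have h2 := closure_mono hsup
    rw [closure_union] at h2
    exact h2
  exact h1.trans (union_subset hψ.2.2 hφ.2.2)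

theorem grd_tst_smul {d : ℕ} {Ω : Set (En d)} {ψ : En d → ℝ} (k : ℝ) (hψ : Tst Ω ψ) :
    Tst Ω (fun x => k * ψ x) := by
  refine ⟨contDiff_const.mul hψ.1, hψ.2.1.mul_left, ?_⟩
  refine (closure_mono ?_).trans hψ.2.2
  intro x hx hx0
  apply hx
  show k * ψ x = 0
  rw [hx0, mul_zero]

theorem grd_h10_smul {d : ℕ} {Ω : Set (En d)} {u : Lp ℝ 2 (mu Ω)} {G : Lp (En d) 2 (mu Ω)} (k : ℝ)
    (h : (u, G) ∈ BE01.H10 Ω) : (k • u, k • G) ∈ BE01.H10 Ω := by
  have h1 : Continuous fun P : Lp ℝ 2 (mu Ω) × Lp (En d) 2 (mu Ω) => k • P :=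
    continuous_const_smul k
  suffices h0 : k • (u, G) ∈ BE01.H10 Ω from h0
  refine map_mem_closure (f := fun P : Lp ℝ 2 (mu Ω) × Lp (En d) 2 (mu Ω) => k • P) h1 h ?_
  rintro P ⟨ψ, hψ, hP1, hP2⟩
  refine ⟨fun x => k * ψ x, grd_tst_smul k hψ, ?_, ?_⟩
  · show ((k • P.1 : Lp ℝ 2 (mu Ω)) : En d → ℝ) =ᵐ[mu Ω] fun x => k * ψ x
    filter_upwards [hP1, Lp.coeFn_smul k P.1] with x h2 h3
    rw [h3, Pi.smul_apply, h2, smul_eq_mul]
  · show ((k • P.2 : Lp (En d) 2 (mu Ω)) : En d → En d) =ᵐ[mu Ω] gradient fun x => k * ψ x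
    filter_upwards [hP2, Lp.coeFn_smul k P.2] with x h2 h3
    rw [h3, Pi.smul_apply, h2, grd_grad_smul k (hψ.1.differentiable (by simp))]

theorem grd_h10_add {d : ℕ} {Ω : Set (En d)} {u v : Lp ℝ 2 (mu Ω)} {G F : Lp (En d) 2 (mu Ω)}
    (h : (u, G) ∈ BE01.H10 Ω) (h' : (v, F) ∈ BE01.H10 Ω) : (u + v, G + F) ∈ BE01.H10 Ω := by
  have h1 : Continuous (Function.uncurry fun P Q : Lp ℝ 2 (mu Ω) × Lp (En d) 2 (mu Ω) => P + Q) :=
    continuous_add
  suffices h0 : (u, G) + (v, F) ∈ BE01.H10 Ω from h0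
  refine map_mem_closure₂ (f := fun P Q : Lp ℝ 2 (mu Ω) × Lp (En d) 2 (mu Ω) => P + Q) h1 h h' ?_
  rintro P ⟨ψ, hψ, hP1, hP2⟩ Q ⟨φ, hφ, hQ1, hQ2⟩
  refine ⟨fun x => ψ x + φ x, grd_tst_add hψ hφ, ?_, ?_⟩
  · show ((P.1 + Q.1 : Lp ℝ 2 (mu Ω)) : En d → ℝ) =ᵐ[mu Ω] fun x => ψ x + φ x
    filter_upwards [hP1, hQ1, Lp.coeFn_add P.1 Q.1] with x h2 h3 h4
    rw [h4, Pi.add_apply, h2, h3]
  · show ((P.2 + Q.2 : Lp (En d) 2 (mu Ω)) : En d → En d) =ᵐ[mu Ω] gradient fun x => ψ x + φ x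
    filter_upwards [hP2, hQ2, Lp.coeFn_add P.2 Q.2] with x h2 h3 h4
    rw [h4, Pi.add_apply, h2, h3, grd_grad_add (hψ.1.differentiable (by simp))
      (hφ.1.differentiable (by simp))]

theorem grd_h10_zero {d : ℕ} {Ω : Set (En d)} {u : Lp ℝ 2 (mu Ω)} {G : Lp (En d) 2 (mu Ω)}
    (h : (u, G) ∈ BE01.H10 Ω) : ((0 : Lp ℝ 2 (mu Ω)), (0 : Lp (En d) 2 (mu Ω))) ∈ BE01.H10 Ω := by
  have h1 := grd_h10_smul 0 h
  rw [zero_smul, zero_smul] at h1
  exact h1

/-- the classes of a test function and of its gradient -/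
theorem grd_cls {d : ℕ} {Ω : Set (En d)} {ψ : En d → ℝ} (hψ : Tst Ω ψ) :
    ∃ (p : Lp ℝ 2 (mu Ω)) (D : Lp (En d) 2 (mu Ω)),
      (∀ F : Lp (En d) 2 (mu Ω), ∫ x, ⟪F x, gradient ψ x⟫_ℝ ∂(mu Ω) = ⟪F, D⟫_ℝ) ∧
      (∀ h : Lp ℝ 2 (mu Ω), ∫ x, h x * ψ x ∂(mu Ω) = ⟪h, p⟫_ℝ) := by
  have hm : MemLp ψ 2 (mu Ω) :=
    (hψ.1.continuous.memLp_of_hasCompactSupport hψ.2.1).restrict Ω
  have hg := Pool.Agent.Helper82_BE01.memLp_gradient hψ
  refine ⟨hm.toLp _, hg.toLp _, fun F => ?_, fun h => ?_⟩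
  · rw [L2.inner_def]
    refine integral_congr_ae ?_
    filter_upwards [hg.coeFn_toLp] with x hx
    rw [hx]
  · rw [L2.inner_def]
    refine integral_congr_ae ?_
    filter_upwards [hm.coeFn_toLp] with x hx
    rw [hx]
    simp only [RCLike.inner_apply, conj_trivial]
    ring

theorem grd_dom {d : ℕ} (hd : 1 ≤ d) {a b : ℝ} (ha : 0 < a) (hab : a < b) : Dom (Sh d a b) := by
  refine ⟨(isOpen_lt continuous_const continuous_norm).inter
    (isOpen_lt continuous_norm continuous_const),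
    (Metric.isBounded_closedBall (x := (0 : En d)) (r := b)).subset fun x hx => ?_,
    EuclideanSpace.single (⟨0, hd⟩ : Fin d) ((a + b) / 2), ?_⟩
  · rw [mem_closedBall_zero_iff]
    exact hx.2.le
  · have h1 : ‖(EuclideanSpace.single (⟨0, hd⟩ : Fin d) ((a + b) / 2) : En d)‖ = (a + b) / 2 := by
      rw [PiLp.norm_single, Real.norm_eq_abs, abs_of_pos (by linarith)]
    refine ⟨?_, ?_⟩
    · rw [h1]; linarith
    · rw [h1]; linarith

theorem grd_hb_ext {H : Type} [NormedAddCommGroup H] [InnerProductSpace ℝ H]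
    (b : HilbertBasis ℕ ℝ H) {x y : H} (h : ∀ k, ⟪b k, x⟫_ℝ = ⟪b k, y⟫_ℝ) : x = y := by
  apply b.repr.injective
  apply lp.ext
  funext k
  rw [b.repr_apply_apply, b.repr_apply_apply]
  exact h k

/-- an isometry up to the factor `m^(1/2)` with prescribed values on a Hilbert basis -/
theorem grd_iso {H E : Type} [NormedAddCommGroup H] [InnerProductSpace ℝ H]
    [NormedAddCommGroup E] [InnerProductSpace ℝ E] [CompleteSpace E]
    (e : HilbertBasis ℕ ℝ H) (g : ℕ → E) (m : ℝ) (hm : 0 < m)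
    (hg : ∀ k l, ⟪g k, g l⟫_ℝ = m * ⟪e k, e l⟫_ℝ) :
    ∃ Gr : H →L[ℝ] E, (∀ k, Gr (e k) = g k) ∧ ∀ h, ‖Gr h‖ ^ 2 = m * ‖h‖ ^ 2 := by
  have hs : 0 < Real.sqrt m := Real.sqrt_pos.2 hm
  have hs2 : Real.sqrt m * Real.sqrt m = m := Real.mul_self_sqrt hm.le
  have hon : Orthonormal ℝ (fun k => (Real.sqrt m)⁻¹ • g k) := by
    rw [orthonormal_iff_ite]
    intro k l
    rw [real_inner_smul_left, real_inner_smul_right, hg, orthonormal_iff_ite.1 e.orthonormal k l]
    by_cases hkl : k = l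
    · rw [if_pos hkl, mul_one, ← mul_assoc, ← mul_inv, hs2, inv_mul_cancel₀ hm.ne']
    · rw [if_neg hkl]
      ring
  obtain ⟨L, hL⟩ : ∃ L : lp (fun _ : ℕ => ℝ) 2 →ₗᵢ[ℝ] E, ∀ (k : ℕ),
      L (lp.single 2 k (1 : ℝ)) = (Real.sqrt m)⁻¹ • g k := by
    refine ⟨hon.orthogonalFamily.linearIsometry, fun k => ?_⟩
    rw [OrthogonalFamily.linearIsometry_apply_single]
    simp
  refine ⟨Real.sqrt m • (L.comp e.repr.toLinearIsometry).toContinuousLinearMap, ?_, ?_⟩
  · intro k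
    show Real.sqrt m • L (e.repr (e k)) = g k
    rw [e.repr_self, hL, smul_smul, mul_inv_cancel₀ hs.ne', one_smul]
  · intro h
    show ‖Real.sqrt m • L (e.repr h)‖ ^ 2 = m * ‖h‖ ^ 2
    rw [norm_smul, L.norm_map, e.repr.norm_map, mul_pow, Real.norm_eq_abs, sq_abs,
      Real.sq_sqrt hm.le]

theorem grd (weo : Pool.Agent.BEO.WeoStmt) : GrdStmt := by
  intro d β m J e om R hd hβ hJ hlo hR hG
  have hpi := Real.pi_pos
  have hdom : Dom (Sh d β (β + Real.pi)) := grd_dom (by omega) hβ (by linarith)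
  choose G hG1 hG2 using hG
  have hom : ∀ k, 0 < om k := by
    intro k
    have h1 := hlo k
    have h2 : (0 : ℝ) < ((k : ℝ) + 1) / 2 := by positivity
    linarith
  have hJi : ∀ f g, ⟪J f, J g⟫_ℝ = m * ⟪f, g⟫_ℝ := by
    intro f g
    rw [real_inner_eq_norm_add_mul_self_sub_norm_mul_self_sub_norm_mul_self_div_two,
      real_inner_eq_norm_add_mul_self_sub_norm_mul_self_sub_norm_mul_self_div_two, ← map_add]
    have h1 := hJ.nrm (f + g)
    have h2 := hJ.nrm f
    have h3 := hJ.nrm g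
    simp only [pow_two] at h1 h2 h3
    rw [h1, h2, h3]
    ring
  have hwe : ∀ k l, ⟪G k, G l⟫_ℝ = om k ^ 2 * ⟪J (e k), J (e l)⟫_ℝ := by
    intro k l
    have h1 := weo d _ (J (e l)) (om k ^ 2 • J (e k)) (G k) (G l) hdom (hG2 k) (hG1 l)
    have h2 : ∫ x, ((om k ^ 2 • J (e k) : Lp ℝ 2 (mu (Sh d β (β + Real.pi)))) x) * J (e l) x
        ∂(mu (Sh d β (β + Real.pi))) = ⟪om k ^ 2 • J (e k), J (e l)⟫_ℝ := by
      rw [L2.inner_def]
      refine integral_congr_ae (Eventually.of_forall fun x => ?_)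
      simp only [RCLike.inner_apply, conj_trivial]
      ring
    rw [L2.inner_def, h1, h2, real_inner_smul_left]
  obtain ⟨Gr, hGr1, hGr2⟩ := grd_iso e (fun k => (om k)⁻¹ • G k) m hJ.pos (by
    intro k l
    rw [real_inner_smul_left, real_inner_smul_right, hwe, hJi,
      orthonormal_iff_ite.1 e.orthonormal k l]
    by_cases hkl : k = l
    · subst hkl
      have := (hom k).ne'
      field_simp
    · rw [if_neg hkl]
      ring)
  have hRe : ∀ k, R (e k) = (om k)⁻¹ • e k := by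
    intro k
    refine grd_hb_ext e fun j => ?_
    rw [hR (e k) j, real_inner_smul_right, orthonormal_iff_ite.1 e.orthonormal j k]
    by_cases hjk : j = k
    · rw [hjk, if_pos rfl, one_div, mul_one]
    · rw [if_neg hjk, zero_div, mul_zero]
  refine ⟨Gr, ?_, hGr2, ?_⟩
  · -- a closed subspace
    have hz := grd_h10_zero (hG1 0)
    let K : Submodule ℝ (Lp ℝ 2 (nu d β)) :=
      { carrier := {h | (J (R h), Gr h) ∈ H10 (Sh d β (β + Real.pi))}
        add_mem' := by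
          intro a b ha hb
          show (J (R (a + b)), Gr (a + b)) ∈ H10 (Sh d β (β + Real.pi))
          rw [map_add, map_add, map_add]
          exact grd_h10_add ha hb
        zero_mem' := by
          show (J (R 0), Gr 0) ∈ H10 (Sh d β (β + Real.pi))
          rw [map_zero, map_zero, map_zero]
          exact hz
        smul_mem' := by
          intro c a ha
          show (J (R (c • a)), Gr (c • a)) ∈ H10 (Sh d β (β + Real.pi))
          rw [map_smul, map_smul, map_smul]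
          exact grd_h10_smul c ha }
    have hKc : IsClosed (K : Set (Lp ℝ 2 (nu d β))) := by
      have hc : Continuous fun h : Lp ℝ 2 (nu d β) => (J (R h), Gr h) :=
        (J.continuous.comp R.continuous).prodMk Gr.continuous
      exact IsClosed.preimage hc isClosed_closure
    have hsp : Submodule.span ℝ (Set.range e) ≤ K := by
      rw [Submodule.span_le]
      rintro _ ⟨k, rfl⟩
      show (J (R (e k)), Gr (e k)) ∈ H10 (Sh d β (β + Real.pi))
      rw [hRe, hGr1, map_smul]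
      exact grd_h10_smul _ (hG1 k)
    have htop : (⊤ : Submodule ℝ (Lp ℝ 2 (nu d β))) ≤ K := by
      rw [← e.dense_span]
      exact Submodule.topologicalClosure_minimal _ hsp hKc
    intro h
    exact htop Submodule.mem_top
  · intro h y hy ψ hψ
    obtain ⟨p, D, hD, hp⟩ := grd_cls hψ
    rw [hD, hp]
    have hk : ∀ k, ⟪G k, D⟫_ℝ = om k ^ 2 * ⟪J (e k), p⟫_ℝ := by
      intro k
      have h1 := hG2 k ψ hψ
      rw [hD, hp, real_inner_smul_left] at h1
      exact h1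
    have s1 : HasSum (fun k => ⟪e k, h⟫_ℝ * ⟪D, (om k)⁻¹ • G k⟫_ℝ) ⟪D, Gr h⟫_ℝ := by
      have h1 := ContinuousLinearMap.hasSum ((innerSL ℝ D).comp Gr) (e.hasSum_repr h)
      have h2 : (fun k => ⟪e k, h⟫_ℝ * ⟪D, (om k)⁻¹ • G k⟫_ℝ) =
          fun k => ((innerSL ℝ D).comp Gr) (e.repr h k • e k) := by
        funext k
        rw [map_smul, e.repr_apply_apply, smul_eq_mul]
        show _ = ⟪e k, h⟫_ℝ * ⟪D, Gr (e k)⟫_ℝ
        rw [hGr1]
      rw [h2]
      exact h1
    have s2 : HasSum (fun k => ⟪e k, y⟫_ℝ * ⟪p, J (e k)⟫_ℝ) ⟪p, J y⟫_ℝ := by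
      have h1 := ContinuousLinearMap.hasSum ((innerSL ℝ p).comp J) (e.hasSum_repr y)
      have h2 : (fun k => ⟪e k, y⟫_ℝ * ⟪p, J (e k)⟫_ℝ) =
          fun k => ((innerSL ℝ p).comp J) (e.repr y k • e k) := by
        funext k
        rw [map_smul, e.repr_apply_apply, smul_eq_mul]
        rfl
      rw [h2]
      exact h1
    have s3 : (fun k => ⟪e k, h⟫_ℝ * ⟪D, (om k)⁻¹ • G k⟫_ℝ) =
        fun k => ⟪e k, y⟫_ℝ * ⟪p, J (e k)⟫_ℝ := by
      funext k
      rw [real_inner_smul_right, real_inner_comm (G k) D, real_inner_comm (J (e k)) p, hk, hy]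
      have := (hom k).ne'
      field_simp
    rw [s3] at s1
    have s4 := s1.unique s2
    rw [real_inner_comm D, real_inner_comm p]
    exact s4

end

end Pool.Agent.BEW.H65
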